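import Pool.Agent.H28.RC.Targets2
import Pool.Agent.H29.HK.AI

/-!
# RC project: AIC (Artin induction for rational valued class functions)
-/

set_option autoImplicit false
set_option linter.unusedSectionVars false

namespace Pool.Agent.H74.RC

open Pool.Agent.H28.RC Pool.Agent.H25.HK Pool.Agent.H29.HK

/-- residues prime to a divisor lift to residues prime to the multiple -/
theorem lift_coprime {n m j : ℕ} (hm : 0 < m) (hnm : n ∣ m) (hj : j.Coprime n) :
    ∃ j' : ℕ, j'.Coprime m ∧ j' ≡ j [MOD n] := by
  have : NeZero m := ⟨hm.ne'⟩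
  obtain ⟨w, hw⟩ := ZMod.unitsMap_surjective hnm (ZMod.unitOfCoprime j hj)
  refine ⟨(w : ZMod m).val, ZMod.val_coe_unit_coprime w, ?_⟩
  have h1 : ((ZMod.unitsMap hnm w : (ZMod n)ˣ) : ZMod n) = (j : ZMod n) := by
    rw [hw]
    exact ZMod.coe_unitOfCoprime j hj
  rw [ZMod.unitsMap_val] at h1
  rw [← ZMod.natCast_eq_natCast_iff]
  rw [← h1, ZMod.natCast_val]

/-- AIC -/
theorem pf_AIC : T_AIC := by
  intro G _ _ φ hρ hcl hpw
  classical
  have := Fintype.ofFinite G
  have := Fintype.ofFinite (Subgroup G)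
  choose f hf using hρ
  -- values on generators
  have hgen : ∀ y z : G, Subgroup.zpowers y = Subgroup.zpowers z → f y = f z := by
    intro y z hyz
    have hz : z ∈ Subgroup.zpowers y := by
      rw [hyz]
      exact Subgroup.mem_zpowers z
    have hz' : z ∈ Submonoid.powers y := by
      rw [mem_powers_iff_mem_zpowers]
      exact hz
    obtain ⟨j, hj⟩ := hz'
    simp only at hj
    have hord : orderOf z = orderOf y := by
      rw [← Nat.card_zpowers, ← Nat.card_zpowers, hyz]
    have hpos : 0 < orderOf y := orderOf_pos y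
    have hcop : j.Coprime (orderOf y) := by
      rw [← hj, orderOf_pow] at hord
      have h1 : Nat.gcd (orderOf y) j = 1 := by
        have h2 := Nat.div_eq_self.1 hord
        rcases h2 with h2 | h2
        · exact absurd h2 hpos.ne'
        · exact h2
      exact (Nat.coprime_comm.1 h1)
    obtain ⟨j', hj', hjj⟩ := lift_coprime (m := Nat.card G) Nat.card_pos (orderOf_dvd_natCard y) hcop
    have h1 : y ^ j' = z := by
      rw [← hj]
      exact pow_eq_pow_iff_modEq.2 hjj
    have h2 := hpw y j' hj'
    rw [h1, hf, hf] at h2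
    exact_mod_cast h2.symm
  have hcls : ∀ x h : G, f (x⁻¹ * h * x) = f h := by
    intro x h
    have h1 := hcl x h
    rw [hf, hf] at h1
    exact_mod_cast h1
  -- the weights
  set ψ : Subgroup G → ℚ := fun D =>
    if h : ∃ y, Subgroup.zpowers y = D then f h.choose else 0 with hψ
  have hψy : ∀ y, ψ (Subgroup.zpowers y) = f y := by
    intro y
    have h : ∃ z, Subgroup.zpowers z = Subgroup.zpowers y := ⟨y, rfl⟩
    simp only [hψ]
    rw [dif_pos h]
    exact hgen _ _ h.choose_spec
  obtain ⟨w, hw⟩ := exists_weights ψ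
  have hw' : ∀ y, f y = ∑ H : Subgroup G, if y ∈ H then w H else 0 := by
    intro y
    rw [← hψy y, ← hw, Finset.sum_filter]
    refine Finset.sum_congr rfl fun H _ => ?_
    simp only [Subgroup.zpowers_le]
  have hcard : (Fintype.card G : ℚ) ≠ 0 := Nat.cast_ne_zero.2 Fintype.card_ne_zero
  set v : Subgroup G → ℚ := fun H => w H * Nat.card H / Fintype.card G with hv
  have hfv : ∀ h, f h = ∑ H : Subgroup G, v H * pc H h := by
    intro h
    have h1 : (Fintype.card G : ℚ) * f h = ∑ x : G, f (x⁻¹ * h * x) := by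
      simp only [hcls, Finset.sum_const, Finset.card_univ, nsmul_eq_mul]
    have h2 : ∑ x : G, f (x⁻¹ * h * x) = ∑ H : Subgroup G, w H * (Nat.card H * pc H h) := by
      simp only [hw']
      rw [Finset.sum_comm]
      refine Finset.sum_congr rfl fun H _ => ?_
      rw [← Finset.sum_filter, Finset.sum_const, nsmul_eq_mul, mul_comm]
      congr 1
      rw [← Nat.cast_mul, ← card_conj H h, Nat.card_eq_fintype_card, Fintype.card_subtype]
    rw [h2] at h1
    have h3 : f h = (∑ H : Subgroup G, w H * (Nat.card H * pc H h)) / Fintype.card G := by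
      rw [← h1]
      field_simp
    rw [h3, Finset.sum_div]
    refine Finset.sum_congr rfl fun H _ => ?_
    rw [hv]
    ring
  refine ⟨∏ H : Subgroup G, (v H).den, Finset.univ,
    fun H => (v H).num * ∏ H' ∈ Finset.univ.erase H, ((v H').den : ℤ), ?_, ?_⟩
  · exact Nat.one_le_iff_ne_zero.2 (Finset.prod_ne_zero_iff.2 fun H _ => (v H).den_nz)
  · intro g
    rw [hf, hfv]
    have key : ∀ H : Subgroup G, (((∏ H : Subgroup G, (v H).den : ℕ) : ℚ)) * v H =
        (((v H).num * ∏ H' ∈ Finset.univ.erase H, ((v H').den : ℤ) : ℤ) : ℚ) := by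
      intro H
      rw [← Finset.mul_prod_erase Finset.univ _ (Finset.mem_univ H)]
      push_cast
      have := Rat.den_mul_eq_num (v H)
      rw [← this]
      ring
    have hQ : (((∏ H : Subgroup G, (v H).den : ℕ) : ℚ)) * (∑ H : Subgroup G, v H * pc H g) =
        ∑ H : Subgroup G, (((v H).num * ∏ H' ∈ Finset.univ.erase H, ((v H').den : ℤ) : ℤ) : ℚ) *
          (pc H g : ℚ) := by
      rw [Finset.mul_sum]
      refine Finset.sum_congr rfl fun H _ => ?_
      rw [← mul_assoc, key]
    exact_mod_cast congrArg (fun x : ℚ => (x : ℂ)) hQ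

end Pool.Agent.H74.RC
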