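import Pool.Agent.H28.RC.Targets2

/-!
# RC project: PRS (the signs of a ray class character)
-/

set_option autoImplicit false
set_option linter.unusedSectionVars false

open NumberField NumberField.InfinitePlace

namespace Pool.Agent.H74.RC

open Pool.Agent.H28.RC

section
variable {K : Type} [Field K] [NumberField K]

lemma coe_ne' {a : 𝓞 K} (ha : a ≠ 0) : (a : K) ≠ 0 := by
  intro h
  exact ha (RingOfIntegers.coe_eq_zero_iff.1 h)

lemma re_coe_mul (w : RP K) (a b : 𝓞 K) :
    re w ((a * b : 𝓞 K) : K) = re w (a : K) * re w (b : K) := by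
  rw [← re_mul]
  congr 1

lemma span_mul' (a b : 𝓞 K) :
    (Ideal.span {a * b} : Ideal (𝓞 K)) = Ideal.span {a} * Ideal.span {b} :=
  (Ideal.span_singleton_mul_span_singleton a b).symm

/-- products of elements with one negative sign -/
lemma prod_signs {m : Ideal (𝓞 K)} {ψ : Ideal (𝓞 K) → ℂ} (hψ : PC m ψ) (c : RP K → 𝓞 K)
    (hc1 : ∀ v, c v - 1 ∈ m) (hc2 : ∀ v, c v ≠ 0) (hc3 : ∀ v, re v (c v : K) < 0)
    (hc4 : ∀ v w, w ≠ v → 0 < re w (c v : K)) (T : Finset (RP K)) :
    ∃ P : 𝓞 K, P ≠ 0 ∧ P - 1 ∈ m ∧ ψ (Ideal.span {P}) = ∏ v ∈ T, ψ (Ideal.span {c v}) ∧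
      (∀ w ∈ T, re w (P : K) < 0) ∧ ∀ w, w ∉ T → 0 < re w (P : K) := by
  classical
  induction T using Finset.induction_on with
  | empty =>
    refine ⟨1, one_ne_zero, by simp, ?_, by simp, ?_⟩
    · rw [Finset.prod_empty, Ideal.span_singleton_one]
      exact hψ.one
    · intro w _
      have : re w ((1 : 𝓞 K) : K) = 1 := map_one _
      rw [this]
      exact one_pos
  | insert v T hv ih =>
    obtain ⟨P, h1, h2, h3, h4, h5⟩ := ih
    refine ⟨c v * P, mul_ne_zero (hc2 v) h1, ?_, ?_, ?_, ?_⟩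
    · have h : c v * P - 1 = c v * (P - 1) + (c v - 1) := by ring
      rw [h]
      exact m.add_mem (m.mul_mem_left _ h2) (hc1 v)
    · rw [span_mul', hψ.mul, h3, Finset.prod_insert hv]
    · intro w hw
      rw [re_coe_mul]
      by_cases hwv : w = v
      · subst hwv
        exact mul_neg_of_neg_of_pos (hc3 w) (h5 w hv)
      · rcases Finset.mem_insert.1 hw with h | h
        · exact absurd h hwv
        · exact mul_neg_of_pos_of_neg (hc4 v w hwv) (h4 w h)
    · intro w hw
      rw [Finset.mem_insert, not_or] at hw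
      rw [re_coe_mul]
      exact mul_pos (hc4 v w hw.1) (h5 w hw.2)

end

theorem pf_PRS : T_SGN → T_PRS := by
  intro hSGN K _ _ m ψ hψ
  classical
  choose c hc1 hc2 hc3 hc4 using fun v : RP K => hSGN K m 1 {v} hψ.ne
  have hc3' : ∀ v, re v (c v : K) < 0 := fun v => hc3 v v (Set.mem_singleton v)
  have hc4' : ∀ v w, w ≠ v → 0 < re w (c v : K) := fun v w h =>
    hc4 v w (fun h' => h (Set.mem_singleton_iff.1 h'))
  have hu : ∀ v, ψ (Ideal.span {c v}) = 1 ∨ ψ (Ideal.span {c v}) = -1 := by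
    intro v
    have h1 : ψ (Ideal.span {c v * c v}) = 1 := by
      apply hψ.ray
      · exact mul_ne_zero (hc2 v) (hc2 v)
      · have : c v * c v - 1 = (c v + 1) * (c v - 1) := by ring
        rw [this]
        exact m.mul_mem_left _ (hc1 v)
      · intro w
        rw [re_coe_mul]
        exact mul_self_pos.2 (re_ne w (coe_ne' (hc2 v)))
    rw [span_mul', hψ.mul] at h1
    exact mul_self_eq_one_iff.1 h1
  refine ⟨Finset.univ.filter fun v => ψ (Ideal.span {c v}) = -1, fun a ha ham => ?_⟩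
  obtain ⟨P, h1, h2, h3, h4, h5⟩ := prod_signs hψ c hc1 hc2 hc3' hc4'
    (Finset.univ.filter fun v => re v (a : K) < 0)
  have h6 : ψ (Ideal.span {a * P}) = 1 := by
    apply hψ.ray
    · exact mul_ne_zero ha h1
    · have h : a * P - 1 = (P - 1) * a + (a - 1) := by ring
      rw [h]
      exact m.add_mem (m.mul_mem_right _ h2) ham
    · intro w
      rw [re_coe_mul]
      rcases lt_or_gt_of_ne (re_ne w (coe_ne' ha)) with h | h
      · exact mul_pos_of_neg_of_neg h (h4 w (Finset.mem_filter.2 ⟨Finset.mem_univ _, h⟩))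
      · refine mul_pos h (h5 w fun h' => ?_)
        exact lt_asymm h (Finset.mem_filter.1 h').2
  rw [span_mul', hψ.mul, h3] at h6
  have h7 : ∏ v ∈ Finset.univ.filter (fun v => re v (a : K) < 0), ψ (Ideal.span {c v}) =
      sg K (Finset.univ.filter fun v => ψ (Ideal.span {c v}) = -1) (a : K) := by
    rw [sg_eq, Finset.prod_filter, Finset.prod_filter]
    refine Finset.prod_congr rfl fun v _ => ?_
    unfold sg1
    rcases lt_or_gt_of_ne (re_ne v (coe_ne' ha)) with h | h
    · rw [if_pos h, if_neg (not_lt.2 h.le)]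
      split_ifs with h8
      · exact h8
      · exact (hu v).resolve_right h8
    · rw [if_neg (not_lt.2 h.le), if_pos h]
      split_ifs <;> rfl
  rw [h7] at h6
  have h8 := sg_sq (Finset.univ.filter fun v => ψ (Ideal.span {c v}) = -1) (a : K)
  exact mul_right_cancel₀ (sg_ne _ _) (h6.trans h8.symm)

end Pool.Agent.H74.RC
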