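import Pool.Agent.H28.RC.Targets2

/-!
# RC project: SEP (separation of the Frobenius eigenvalues by twists)
-/

set_option autoImplicit false

namespace Pool.Agent.H74.RC

open Pool.Agent.H28.RC

/-- the geometric sum -/
theorem geo {M a : ℕ} (hM : 2 ≤ M) (ha : a.Coprime M) {w : ℂ} (hw : w ^ M = 1) :
    ∑ k ∈ Finset.range M, (w ^ a) ^ (k + 1) = if w = 1 then (M : ℂ) else 0 := by
  split_ifs with h
  · subst h
    simp
  · have h1 : w ^ a ≠ 1 := by
      intro h2
      have h3 : w ^ Nat.gcd a M = 1 := by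
        rw [pow_gcd_eq_one]
        exact ⟨h2, hw⟩
      rw [ha, pow_one] at h3
      exact h h3
    have h2 : ∑ k ∈ Finset.range M, (w ^ a) ^ (k + 1) =
        w ^ a * ∑ k ∈ Finset.range M, (w ^ a) ^ k := by
      rw [Finset.mul_sum]
      exact Finset.sum_congr rfl fun k _ => pow_succ' _ _
    have h3 := geom_sum_mul (w ^ a) M
    have h4 : (w ^ a) ^ M = 1 := by
      rw [← pow_mul, mul_comm, pow_mul, hw, one_pow]
    rw [h4, sub_self] at h3
    have h5 := (mul_eq_zero.1 h3).resolve_right (sub_ne_zero.2 h1)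
    rw [h2, h5, mul_zero]

theorem pf_SEP : T_SEP := by
  intro M hM A _ β e hβ hyp k hk
  classical
  have key : ∀ ζ : ℂ, ζ ^ M = 1 → ∑ l ∈ Finset.univ.filter (fun l => ζ * β l = 1), e l = 0 := by
    intro ζ hζ
    obtain ⟨M', hM', hMM, h⟩ := hyp ζ hζ
    have h1 : ∑ k ∈ Finset.range M, ∑ a ∈ un M', ζ ^ (a * (k + 1)) *
        ∑ l, e l * β l ^ (a * (k + 1)) = 0 :=
      Finset.sum_eq_zero fun k _ => h (k + 1) (by omega)
    have h2 : ∀ a ∈ un M', ∀ l : A, ∑ k ∈ Finset.range M, ζ ^ (a * (k + 1)) *
        (e l * β l ^ (a * (k + 1))) = if ζ * β l = 1 then (M : ℂ) * e l else 0 := by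
      intro a ha l
      unfold un at ha
      rw [Finset.mem_filter] at ha
      have ha1 : a ≠ 0 := by
        rintro rfl
        have := ha.2
        rw [Nat.coprime_zero_left] at this
        omega
      have haM : a.Coprime M := Nat.Coprime.coprime_dvd_right hMM ha.2
      have h3 : ∀ k ∈ Finset.range M, ζ ^ (a * (k + 1)) * (e l * β l ^ (a * (k + 1))) =
          e l * ((ζ * β l) ^ a) ^ (k + 1) := by
        intro k _
        rw [← pow_mul, mul_pow]
        ring
      rw [Finset.sum_congr rfl h3, ← Finset.mul_sum]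
      rcases hβ l with h4 | h4
      · rw [h4, mul_zero, if_neg (by simp)]
        rw [zero_pow ha1]
        simp
      · have h5 : (ζ * β l) ^ M = 1 := by
          rw [mul_pow, hζ, h4, one_mul]
        rw [geo hM haM h5]
        split_ifs
        · ring
        · ring
    have h3 : ∑ k ∈ Finset.range M, ∑ a ∈ un M', ζ ^ (a * (k + 1)) *
        ∑ l, e l * β l ^ (a * (k + 1)) =
        ∑ a ∈ un M', ∑ l : A, if ζ * β l = 1 then (M : ℂ) * e l else 0 := by
      rw [Finset.sum_comm]
      refine Finset.sum_congr rfl fun a ha => ?_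
      simp only [Finset.mul_sum]
      rw [Finset.sum_comm]
      exact Finset.sum_congr rfl fun l _ => h2 a ha l
    rw [h3, Finset.sum_const, nsmul_eq_mul, ← Finset.sum_filter, ← Finset.mul_sum] at h1
    have h4 : ((un M').card : ℂ) ≠ 0 := by
      rw [Nat.cast_ne_zero]
      apply Finset.card_ne_zero_of_mem (a := 1)
      unfold un
      rw [Finset.mem_filter, Finset.mem_range]
      exact ⟨by omega, Nat.coprime_one_left M'⟩
    have h5 : (M : ℂ) ≠ 0 := by
      rw [Nat.cast_ne_zero]
      omega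
    exact (mul_eq_zero.1 ((mul_eq_zero.1 h1).resolve_left h4)).resolve_left h5
  have hfib := Finset.sum_fiberwise_of_maps_to (s := Finset.univ) (t := Finset.univ.image β)
    (g := β) (fun x _ => Finset.mem_image_of_mem β (Finset.mem_univ x))
    (fun l => e l * β l ^ k)
  rw [← hfib]
  refine Finset.sum_eq_zero fun η hη => ?_
  obtain ⟨l₀, -, hl₀⟩ := Finset.mem_image.1 hη
  have h1 : ∑ l ∈ Finset.univ.filter (fun l => β l = η), e l * β l ^ k =
      (∑ l ∈ Finset.univ.filter (fun l => β l = η), e l) * η ^ k := by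
    rw [Finset.sum_mul]
    refine Finset.sum_congr rfl fun l hl => ?_
    rw [Finset.mem_filter] at hl
    rw [hl.2]
  rw [h1]
  rcases hβ l₀ with h | h
  · rw [← hl₀, h, zero_pow (by omega), mul_zero]
  · rw [hl₀] at h
    have hη0 : η ≠ 0 := by
      rintro rfl
      rw [zero_pow (by omega)] at h
      exact zero_ne_one h
    have h2 := key η⁻¹ (by rw [inv_pow, h, inv_one])
    have h3 : Finset.univ.filter (fun l => η⁻¹ * β l = 1) =
        Finset.univ.filter (fun l => β l = η) := by
      ext l
      simp only [Finset.mem_filter, Finset.mem_univ, true_and]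
      rw [inv_mul_eq_one₀ hη0, eq_comm]
    rw [h3] at h2
    rw [h2, zero_mul]

end Pool.Agent.H74.RC
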