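import Pool.Agent.H28.RC.Targets3

/-!
# RC project: CPR (comparison of two localisations)
-/

set_option autoImplicit false
set_option linter.unusedSectionVars false

open NumberField

namespace Pool.Agent.H74.RC

open Pool.Agent.H28.RC

section
variable {F Ω : Type} [Field F] [NumberField F] [Field Ω] [NumberField Ω] [Algebra F Ω]

/-- a prime with a Frobenius element is a nonzero prime -/
theorem fro_prime {P : Ideal (𝓞 F)} {g : Ω ≃ₐ[F] Ω} (h : Fro P g) : P.IsPrime ∧ P ≠ ⊥ := by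
  obtain ⟨Q, hQ, hQP, hx⟩ := h
  refine ⟨?_, ?_⟩
  · rw [← hQP]
    exact Ideal.IsPrime.under _ Q
  · rintro rfl
    have h1 := hx 0
    rw [Ideal.absNorm_bot, pow_zero, smul_zero, zero_sub] at h1
    have h2 : (1 : 𝓞 Ω) ∈ Q := by
      have := Q.neg_mem h1
      rwa [neg_neg] at this
    exact hQ.ne_top ((Ideal.eq_top_iff_one _).2 h2)

end

theorem pf_CPR : T_URT → T_FR1 → T_SUR → T_CPR := by
  intro hURT hFR1 hSUR F Ω _ _ _ _ _ _ m ψ H H' μ μ' hm hUR hL hL' g hg hg'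
  set K : Subgroup (Ω ≃ₐ[F] Ω) := H ⊓ H' with hK
  set L : IntermediateField F Ω := IntermediateField.fixedField K with hLd
  have hres : ∀ h : Ω ≃ₐ[L] Ω, h.restrictScalars F ∈ K := by
    intro h
    have h1 : h.restrictScalars F ∈ L.fixingSubgroup := fun x => h.commutes x
    have h2 : L.fixingSubgroup = K := IntermediateField.fixingSubgroup_fixedField K
    rw [← h2]
    exact h1
  set r : (Ω ≃ₐ[L] Ω) →* K :=
    { toFun := fun h => ⟨h.restrictScalars F, hres h⟩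
      map_one' := by
        apply Subtype.ext
        ext x
        rfl
      map_mul' := fun a b => by
        apply Subtype.ext
        ext x
        rfl } with hr
  set i1 : K →* H := Subgroup.inclusion inf_le_left with hi1
  set i2 : K →* H' := Subgroup.inclusion inf_le_right with hi2
  set ν : (Ω ≃ₐ[L] Ω) →* ℂˣ := ((μ.comp i1).comp r) / ((μ'.comp i2).comp r) with hν
  have hinj : Function.Injective (algebraMap (𝓞 F) (𝓞 L)) :=
    FaithfulSMul.algebraMap_injective (𝓞 F) (𝓞 L)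
  have hm' : m.map (algebraMap (𝓞 F) (𝓞 L)) ≠ ⊥ := by
    rw [Ne, Ideal.map_eq_bot_iff_of_injective hinj]
    exact hm
  have hν1 : ν = 1 := by
    refine hSUR L Ω (m.map (algebraMap (𝓞 F) (𝓞 L))) ν hm' ((hURT F L Ω m).2 hUR) ?_
    intro P hPm h hFro
    obtain ⟨hP, hP0⟩ := fro_prime hFro
    obtain ⟨hp, hp0, hiff⟩ := (hURT F L Ω m).1 P hP hP0
    have hpm := hiff.1 hPm
    obtain ⟨g₀, f, hf, hg₀, -, -, hgf⟩ := hFR1 F L Ω m hUR P h hFro hpm
    have hmem := hres h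
    have e1 : (⟨h.restrictScalars F, hmem⟩ : K) = ⟨g₀ ^ f, hgf ▸ hmem⟩ := Subtype.ext hgf
    have hH : g₀ ^ f ∈ H := (Subgroup.mem_inf.1 (hgf ▸ hmem : g₀ ^ f ∈ K)).1
    have hH' : g₀ ^ f ∈ H' := (Subgroup.mem_inf.1 (hgf ▸ hmem : g₀ ^ f ∈ K)).2
    have h1 := hL _ hpm g₀ hg₀ f hH
    have h2 := hL' _ hpm g₀ hg₀ f hH'
    rw [h1] at h2
    have h3 : μ ⟨g₀ ^ f, hH⟩ = μ' ⟨g₀ ^ f, hH'⟩ := Units.ext h2
    show μ (i1 (r h)) / μ' (i2 (r h)) = 1
    have h4 : r h = ⟨g₀ ^ f, hgf ▸ hmem⟩ := e1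
    rw [h4, div_eq_one]
    exact h3
  have hgK : g ∈ K := Subgroup.mem_inf.2 ⟨hg, hg'⟩
  have hfix : ∀ x : L, g (x : Ω) = x := fun x => x.2 ⟨g, hgK⟩
  set h : Ω ≃ₐ[L] Ω := { g.toRingEquiv with commutes' := fun x => hfix x } with hh
  have h1 : ν h = 1 := by
    rw [hν1]
    rfl
  have h2 : μ (i1 (r h)) / μ' (i2 (r h)) = 1 := h1
  have h3 : r h = ⟨g, hgK⟩ := by
    apply Subtype.ext
    ext x
    rfl
  rw [h3, div_eq_one] at h2
  exact h2

end Pool.Agent.H74.RC
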