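import Pool.Agent.H28.RC.Targets3

/-!
# RC project: RC1 (reciprocity for one-dimensional characters)
-/

set_option autoImplicit false
set_option linter.unusedSectionVars false

open NumberField

namespace Pool.Agent.H74.RC

open Pool.Agent.H28.RC

section
variable {F Ω : Type} [Field F] [NumberField F] [Field Ω] [NumberField Ω] [Algebra F Ω]

theorem nat_mem_prime {R : Type} [CommRing R] {P : Ideal R} (hP : P.IsPrime) {n : ℕ} (hn : n ≠ 0)
    (h : (n : R) ∈ P) : ∃ p ∈ n.primeFactors, (p : R) ∈ P := by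
  have h1 : (((n.primeFactorsList : Multiset ℕ).map (fun p : ℕ => (p : R))).prod) = (n : R) := by
    rw [Multiset.map_coe, Multiset.prod_coe, ← Nat.cast_list_prod, Nat.prod_primeFactorsList hn]
  rw [← h1] at h
  obtain ⟨a, ha, haP⟩ := (hP.multiset_prod_mem_iff_exists_mem _).1 h
  obtain ⟨p, hp, rfl⟩ := Multiset.mem_map.1 ha
  refine ⟨p, ?_, haP⟩
  rw [Multiset.mem_coe] at hp
  exact List.mem_toFinset.2 hp

/-- Frobenius elements in a quotient -/
theorem fro_res (E : IntermediateField F Ω) [Normal F E] {P : Ideal (𝓞 F)} {g : Ω ≃ₐ[F] Ω}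
    (h : Fro P g) : Fro P (AlgEquiv.restrictNormalHom E g) := by
  obtain ⟨Q, hQ, hQP, hx⟩ := h
  refine ⟨Q.under (𝓞 E), Ideal.IsPrime.under _ Q, ?_, fun x => ?_⟩
  · rw [Ideal.under_under]
    exact hQP
  · rw [Ideal.mem_comap]
    have h1 := hx (algebraMap (𝓞 E) (𝓞 Ω) x)
    rw [map_sub, map_pow]
    have h2 : algebraMap (𝓞 E) (𝓞 Ω) ((AlgEquiv.restrictNormalHom E g) • x) =
        g • (algebraMap (𝓞 E) (𝓞 Ω) x) := by
      apply RingOfIntegers.ext
      exact AlgEquiv.restrictNormal_commutes g E (x : E)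
    rw [h2]
    exact h1

end

theorem pf_RC1 : T_FRE → T_PRM → T_RC0 → T_RC1 := by
  intro hFRE hPRM hRC0 F Ω _ _ _ _ _ _ μ
  classical
  set E : IntermediateField F Ω := IntermediateField.fixedField μ.ker with hE
  have hgal : IsGalois F E := IsGalois.of_fixedField_normal_subgroup μ.ker
  set e := IsGalois.normalAutEquivQuotient (K := F) (L := Ω) μ.ker with he
  set μ' : (E ≃ₐ[F] E) →* ℂˣ := (QuotientGroup.kerLift μ).comp e.symm.toMonoidHom with hμ'
  have hinj : Function.Injective μ' := by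
    intro a b hab
    have h1 : QuotientGroup.kerLift μ (e.symm a) = QuotientGroup.kerLift μ (e.symm b) := hab
    exact e.symm.injective (QuotientGroup.kerLift_injective μ h1)
  have hres : ∀ g : Ω ≃ₐ[F] Ω, μ' (AlgEquiv.restrictNormalHom E g) = μ g := by
    intro g
    have h1 : AlgEquiv.restrictNormalHom E g = e (g : (Ω ≃ₐ[F] Ω) ⧸ μ.ker) :=
      (IsGalois.normalAutEquivQuotient_apply μ.ker g).symm
    show QuotientGroup.kerLift μ (e.symm _) = μ g
    rw [h1, MulEquiv.symm_apply_apply]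
    rfl
  have hcyc : IsCyclic (E ≃ₐ[F] E) := by
    refine isCyclic_of_injective_ringHom ((Units.coeHom ℂ).comp μ') fun a b hab => ?_
    exact hinj (Units.ext hab)
  obtain ⟨m, ψ, hPC, hval, hrec⟩ := hRC0 F E μ' hcyc
  obtain ⟨χ, -, hχ, hχv⟩ := hPRM F m ψ hPC
  refine ⟨χ, (Ideal.absNorm m).primeFactors, ⟨Nat.card (E ≃ₐ[F] E), Nat.card_pos, fun I => ?_⟩, ?_⟩
  · rcases hχv I with h | ⟨J, -, -, h⟩
    · exact Or.inl h
    · rcases hval J with h1 | h1
      · left
        rw [h, h1, map_zero]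
      · right
        rw [h, ← map_pow, h1, map_one]
  · intro P hP hP0 hPB g hg
    have hPm : P ⊔ m = ⊤ := by
      by_contra hc
      have hmax : P.IsMaximal := hP.isMaximal hP0
      have h3 := hmax.eq_of_le hc le_sup_left
      have hle : m ≤ P := by
        rw [h3]
        exact le_sup_right
      have h4 : ((Ideal.absNorm m : ℕ) : 𝓞 F) ∈ P := hle (Ideal.absNorm_mem m)
      have h5 : Ideal.absNorm m ≠ 0 := by
        rw [Ne, Ideal.absNorm_eq_zero_iff]
        exact hPC.ne
      obtain ⟨p, hp, hpP⟩ := nat_mem_prime hP h5 h4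
      exact hPB p (Nat.prime_of_mem_primeFactors hp) hp hpP
    rw [hχ P hP0 hPm, hrec P hPm _ (fro_res E hg), hres]

end Pool.Agent.H74.RC
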